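import Pool.Agent.TH597.IV.Main

/-!
# Ivrii's conjecture for almost every linear image, periods at most the dimension

Definitions (files `Pool/Agent/H721R2/Ivrii/Def.lean` and `Pool/Agent/TH597/IV/Stm.lean`), for a set
`Ω` (the table) in a real inner product space:

* `LocalDef Ω q F`: near `q` the table is `{F < 0}`, `F` is `C³` near `q`, `F q = 0` and the
  gradient of `F` at `q` is not zero;
* `Step Ω q v q' v'`: the particle leaves `q` with velocity `v`, stays in `Ω` until it meets the
  boundary transversally at `q' = q + t v`, `t > 0`, where the boundary is regular of class `C³`,
  and `v'` is the velocity reflected there;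
* `Orbit Ω n p u`: `(p k, u k)` is a billiard trajectory of unit speed with
  `p (k + n) = p k`, `u (k + n) = u k`, `n ≥ 1`;
* `PerLe Ω N`: the phase points `(q, v)` which start such a trajectory with some `n ≤ N`;
* `lin A`: the linear map of `ℝ^d` with matrix `A`.

The theorem: for every `d ≥ 2` and every set `Ω ⊆ ℝ^d`, for almost every matrix `A` (Lebesgue
measure on the matrices) the set `PerLe (A(Ω)) d` has vanishing `(2 d - 2)`-dimensional Hausdorff
measure.

## Outline of the proof

Near a given closed trajectory in a table `T(Ω)`, `T` invertible, the trajectories in the tables
`T'(Ω)`, `T'` near `T`, form a family with parameter `(T', ζ)`, `ζ` in a space of dimension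
`2 d - 2` (`Fam`, `LOC`). Let `A` be the set of the closed trajectories with `n` bounces, `x k` the
bounces in the coordinates of `Ω`, `Δ k = x (k + 1) - x k` and `τ k` the length of the side
`T (Δ k)`, and suppose that `A` has positive measure.

* (`MCONST`) The length `ℓ = ∑ τ k` has at the points of `A` the first derivatives `0` in the
  directions `ζ` and `∑ ⟪T Δ k, S (Δ k)⟫ / τ k` in the direction `S` of `T`. At almost every point
  of `A` each function vanishing on `A` is stationary, and the mixed second derivatives of `ℓ`
  agree; so the quadratic form `M = ∑ Δ k ⊗ Δ k / τ k` is stationary in the directions `ζ`.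
* (`LINALG`, `NULL`) For a fixed choice of a nonsingular principal minor of `M` the relations
  expressing that `Δ 0` lies in the range of `M` may be differentiated at almost every point of `A`
  in the directions `ζ`. As `M` is stationary, the derivatives of `Δ 0`, too, lie in the range of
  `M`. Since `T (Δ 0)` has every direction, `M` is invertible. But its range is spanned by the `n`
  vectors `Δ k`, whose sum is zero. So `n ≥ d + 1`.
* (`OPER`, `FINAL`) Countably many of the families cover all closed trajectories with at most `d`
  bounces in all the tables `T(Ω)`; Fubini.
-/

set_option autoImplicit false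

open MeasureTheory

namespace Pool.Agent.Results.MP_249f74_an.AlmostEveryLinearImage

open Pool.Agent.TH597.IV

/-- For every `d ≥ 2` and every table `Ω` in `ℝ^d`, for almost every `d × d` matrix `A`, the phase
points of the billiard in the table `A(Ω)` whose trajectory is closed after at most `d` bounces
form a set of `(2 d - 2)`-dimensional Hausdorff measure zero. -/
theorem result (d : ℕ) (hd : 2 ≤ d) (Ω : Set (EuclideanSpace ℝ (Fin d))) :
    ∀ᵐ A : Fin d → Fin d → ℝ, μH[((2 * d - 2 : ℕ) : ℝ)] (PerLe (lin A '' Ω) d) = 0 :=
  main d hd Ω

end Pool.Agent.Results.MP_249f74_an.AlmostEveryLinearImage
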